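import Mathlib
import Pool.Agent.N679.BH.Str2
import Pool.Agent.N679.SD.Glu
import Pool.Agent.N679.SD.Den

/-!
# Polignac numbers: almost all even numbers in every window, or all but a power-saving set of a Bohr set

For an even number `a` let `count a 1 x` be the number of the primes `q ≤ x` for which `a + q` is prime. One of the
following two statements holds.

1. There are `N ≥ 1`, a Bohr set (finitely many points `θ` of the unit circle, `ρ > 0`; the integers `a` with
   `|θ ^ a - 1| < ρ` for all `θ`), `B`, `δ > 0` and `C` such that for EVERY interval of length `H` and every large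
   `x` all but `C H ^ (1 - δ)` of the multiples `a` of `N` in the interval and in the Bohr set are differences
   `p - q` of two primes for at least `x / (log x) ^ B` primes `q ≤ x`.
2. For every `ε > 0` there is a `B` such that for every `d ≥ 1`, in every residue class and in EVERY sufficiently
   long interval, at least the proportion `1 - ε` of the integers `a` of the class with `gcd (a, d) = 1`, `2 ∣ a d`
   are of the form `a = p - d q` with primes `p`, `q` infinitely often, and for at least `x / (log x) ^ B` primes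
   `q ≤ x` for arbitrarily large `x`. For `d = 1` these are the even numbers `a` and the differences `a = p - q` of
   two primes: in this case the set of the even numbers which are not (infinitely often) differences of two primes
   has upper Banach density zero.

The proof uses the coloured Maynard-Tao theorem with the constant `18/5` (`Pool.Agent.Y827.RO.lamRD`), the
structure theorem `Pool.Agent.N679.BH.str2` and the gluing `Pool.Agent.N679.SD.glue`, all from the starting files.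
-/

set_option autoImplicit false

namespace Pool.Agent.Results.MP_70e905_nt.AlmostAllOrThin

open Finset Filter

/-- the local condition for `a = p - d q`: for `d = 1` this means that `a` is even -/
def Adm (a d : ℤ) : Prop := Int.gcd a d = 1 ∧ 2 ∣ a * d

/-- the number of the primes `q ≤ x` for which `a + d q` is prime, that is the number of the representations
`a = p - d q` with primes `p` and `q ≤ x` -/
noncomputable def count (a d : ℤ) (x : ℕ) : ℕ :=
  {q : ℕ | q ≤ x ∧ q.Prime ∧ ∃ p : ℕ, p.Prime ∧ (p : ℤ) - d * q = a}.ncard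

/-- `a` satisfies the local condition and is of the form `p - d q` with primes `p`, `q` infinitely often; moreover,
there are arbitrarily large `x` with at least `x / (log x) ^ B` such representations with `q ≤ x` -/
def Often (B : ℕ) (a d : ℤ) : Prop :=
  Adm a d ∧ {q : ℕ | q.Prime ∧ ∃ p : ℕ, p.Prime ∧ (p : ℤ) - d * q = a}.Infinite ∧
    ∃ᶠ x : ℕ in atTop, (x : ℝ) / (Real.log x) ^ B ≤ (count a d x : ℝ)

/-- the integer `a` is in the Bohr set of the finite set `Λ` of points of the unit circle and the radius `ρ` -/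
def InBohr (Λ : Finset Circle) (ρ : ℝ) (a : ℤ) : Prop := ∀ θ ∈ Λ, ‖((θ ^ a : Circle) : ℂ) - 1‖ < ρ

theorem count_eq (a d : ℤ) (x : ℕ) : count a d x = Pool.Agent.N679.PD.cnt a d x := by
  unfold count Pool.Agent.N679.PD.cnt
  congr 1
  ext q
  have e : ∀ p : ℕ, ((p : ℤ) - d * q = a) ↔ (a + (q : ℤ) * d = p) := fun p => by
    constructor
    · intro h; rw [← h]; ring
    · intro h; rw [← h]; ring
  simp only [Set.mem_ofPred_eq, e]

theorem often_of_oft {B : ℕ} {a d : ℤ} (h : Pool.Agent.N679.PD.Oft B a d) : Often B a d := by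
  refine ⟨h.1, ?_, ?_⟩
  · have h1 := Pool.Agent.R493.OT.infinite_of_freq (B := B) h.2
    have e : ∀ q p : ℕ, ((p : ℤ) - d * q = a) ↔ (a + (q : ℤ) * d = p) := fun q p => by
      constructor
      · intro h; rw [← h]; ring
      · intro h; rw [← h]; ring
    simp only [e]
    exact h1
  · simp only [count_eq]
    exact h.2

/-- roots on the circle -/
theorem root (N : ℕ) (hN : 1 ≤ N) (θ : Circle) : ∃ ξ : Circle, ∀ s : ℤ, ξ ^ ((N : ℤ) * s) = θ ^ s := by
  obtain ⟨t, ht⟩ : ∃ t : ℝ, Circle.exp t = θ := ⟨_, Circle.exp_arg θ⟩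
  refine ⟨Circle.exp (t / N), fun s => ?_⟩
  have hN0 : (N : ℝ) ≠ 0 := by
    have : (0 : ℝ) < N := by exact_mod_cast hN
    exact this.ne'
  have h1 : Circle.exp (t / N) ^ N = θ := by
    rw [← ht, ← Circle.exp_natCast_mul]
    congr 1
    field_simp
  rw [zpow_mul, zpow_natCast, h1]

open Classical in
theorem result :
    -- (1) a Bohr set, at every scale
    (∃ N B : ℕ, 1 ≤ N ∧ ∃ (Λ : Finset Circle) (ρ δ C : ℝ), 0 < ρ ∧ 0 < δ ∧ ∀ (A : ℤ) (H : ℕ), 1 ≤ H →
      ∀ᶠ x : ℕ in atTop,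
        (((Ioc A (A + H)).filter (fun a : ℤ => (N : ℤ) ∣ a ∧ InBohr Λ ρ a ∧
          (count a 1 x : ℝ) < (x : ℝ) / (Real.log x) ^ B)).card : ℝ) ≤ C * (H : ℝ) ^ (1 - δ)) ∨
    -- (2) all windows; the case `d = 1` concerns the differences of two primes
    (∀ ε : ℝ, 0 < ε → ∃ B : ℕ, ∀ d N : ℕ, 1 ≤ d → 1 ≤ N → ∀ r : ℤ, ∃ L : ℕ, ∀ (A : ℤ) (H : ℕ), L ≤ H →
      (1 - ε) * (((Ioc A (A + H)).filter (fun a : ℤ => (N : ℤ) ∣ a - r ∧ Adm a d)).card : ℝ) ≤
        (((Ioc A (A + H)).filter (fun a : ℤ => (N : ℤ) ∣ a - r ∧ Often B a d)).card : ℝ)) := by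
  by_cases h1 : ∃ N B : ℕ, 1 ≤ N ∧ ∃ (Λ : Finset Circle) (ρ δ C : ℝ), 0 < ρ ∧ 0 < δ ∧ ∀ (A : ℤ) (H : ℕ), 1 ≤ H →
      ∀ᶠ x : ℕ in atTop,
        (((Ioc A (A + H)).filter (fun a : ℤ => (N : ℤ) ∣ a ∧ InBohr Λ ρ a ∧
          (count a 1 x : ℝ) < (x : ℝ) / (Real.log x) ^ B)).card : ℝ) ≤ C * (H : ℝ) ^ (1 - δ)
  · exact Or.inl h1
  right
  push Not at h1
  intro ε hε
  obtain ⟨ε', hε'0, hε'1, hε'2⟩ : ∃ ε' : ℝ, 0 < ε' ∧ ε' ≤ 1 ∧ ε' ≤ ε :=
    ⟨min ε 1, lt_min hε (by norm_num), min_le_right _ _, min_le_left _ _⟩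
  obtain ⟨n₀, hn₀⟩ := Pool.Agent.N679.BH.str2 Pool.Agent.N679.BH.s_kn2 ε' hε'0 hε'1
  set n : ℕ := max n₀ 1 with hn
  have hn1 : 1 ≤ n := le_max_right _ _
  obtain ⟨K, hK, hmany⟩ := Pool.Agent.N679.SD.many n hn1
  refine ⟨4 * n * K + 3, fun d N₀ hd hN₀ r => ?_⟩
  by_contra hcon
  push Not at hcon
  set N : ℕ := N₀ * (2 * (4 * n * K).factorial * d) with hN
  have hfac : 0 < (4 * n * K).factorial := Nat.factorial_pos _
  have hN1 : 1 ≤ N := by
    rw [hN]
    have : 0 < N₀ * (2 * (4 * n * K).factorial * d) := by positivity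
    exact this
  have h2 : 2 ∣ N := ⟨N₀ * ((4 * n * K).factorial * d), by rw [hN]; ring⟩
  have hdN : d ∣ N := ⟨N₀ * (2 * (4 * n * K).factorial), by rw [hN]; ring⟩
  have hNN : N₀ ∣ N := Dvd.intro _ rfl
  have hNp : ∀ p : ℕ, p.Prime → p ≤ 4 * n * K → p ∣ N := by
    intro p hp hle
    refine ((Nat.Prime.dvd_factorial hp).2 hle).trans ⟨N₀ * (2 * d), ?_⟩
    rw [hN]; ring
  obtain ⟨α, hα0, hα1, hα, hU⟩ := Pool.Agent.N679.SD.dens (d := d) (N := N) (N₀ := N₀) hN1 h2 hdN hNN r
    (fun a => Often (4 * n * K + 3) a d) (fun a h => h.1) ε' (by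
      intro L
      obtain ⟨A, H, hLH, h⟩ := hcon L
      refine ⟨A, H, hLH, h.trans_le ?_⟩
      exact mul_le_mul_of_nonneg_right (by linarith) (Nat.cast_nonneg _))
  obtain ⟨q, K', Λ, δ, hq, hK', hδ, hstr⟩ := hn₀ n (le_max_left _ _) d hd
    {s : ℤ | ¬ Often (4 * n * K + 3) (α + N * s) d} hU K hK
  -- the differences
  obtain ⟨C, hC⟩ := Pool.Agent.N679.SD.rect K' hK'
  have hK'0 : (0 : ℝ) < K' := by exact_mod_cast hK'
  choose ξ hξ using root N hN1
  obtain ⟨A, H, hH, hfr⟩ := h1 (N * q) (4 * n * K + 3) (Nat.mul_pos hN1 hq) (Λ.image ξ) δ (1 / (K' : ℝ)) C hδ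
    (by positivity)
  set F : ℕ → Finset ℤ := fun x => (Ioc A (A + H)).filter (fun a : ℤ =>
        ((N * q : ℕ) : ℤ) ∣ a ∧ InBohr (Λ.image ξ) δ a ∧
          (count a 1 x : ℝ) < (x : ℝ) / (Real.log x) ^ (4 * n * K + 3)) with hF
  obtain ⟨S, hS⟩ := Pool.Agent.N679.PD.freq_exists (ι := {S // S ∈ (Ioc A (A + H)).powerset})
    (P := fun S x => F x = S.1 ∧ C * (H : ℝ) ^ (1 - 1 / (K' : ℝ)) < ((F x).card : ℝ)) (by
      refine hfr.mono fun x hx => ?_
      exact ⟨⟨F x, mem_powerset.2 (filter_subset _ _)⟩, rfl, hx⟩)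
  obtain ⟨x₀, hx₀⟩ := hS.exists
  obtain ⟨l, l', hl, hl', hll⟩ := hC N q h2 hN1 hq A H hH (F x₀) (filter_subset _ _)
    (fun a ha => (mem_filter.1 ha).2.1) hx₀.2
  obtain ⟨X, Z, hX, hZ, hXZ, hXV, hZV, hSS⟩ := hstr {s : ℤ | (N : ℤ) * s ∈ F x₀}
    ⟨l, l', hl, hl', fun i j => by
      have h3 := (mem_filter.1 (hll i j)).2
      refine ⟨hll i j, fun θ hθ => ?_⟩
      have h4 := h3.2.1 (ξ θ) (mem_image_of_mem ξ hθ)
      rw [hξ] at h4
      exact h4⟩
  refine Pool.Agent.N679.SD.glue hmany hd hN1 h2 hNp hdN hα0 hα1 hα X Z hX hZ hXZ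
    (hS.mono fun x hx => ⟨fun i k k' => ?_, fun i k k' => ?_⟩) (fun S S' hd hd' hc => ?_)
  · have h3 : (N : ℤ) * (X true i k' - X false i k) ∈ F x := by
      rw [hx.1, ← hx₀.1]
      exact hXV i k k'
    have h4 := (mem_filter.1 h3).2.2.2
    rw [count_eq] at h4
    exact h4
  · have h3 : (N : ℤ) * (Z true i k' - Z false i k) ∈ F x := by
      rw [hx.1, ← hx₀.1]
      exact hZV i k k'
    have h4 := (mem_filter.1 h3).2.2.2
    rw [count_eq] at h4
    exact h4
  · obtain ⟨a, b, i, hi, j, hj, h⟩ := hSS S S' hd hd' hc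
    exact ⟨a, b, i, hi, j, hj, fun k k' h3 => h k k' (often_of_oft h3)⟩

end Pool.Agent.Results.MP_70e905_nt.AlmostAllOrThin
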