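import Mathlib
import Pool.Agent.N679.BH.Str2
import Pool.Agent.T9h25.WS

/-!
# Almost all even numbers in windows of bounded length, at every scale, or Polignac numbers filling a Bohr set

One of the following two statements holds.

1. There are `N ≥ 1`, a Bohr set (finitely many points `θ` of the unit circle, `ρ > 0`; the integers `a` with
   `|θ ^ a - 1| < ρ` for all `θ`), `B`, `δ > 0` and `C` such that in EVERY interval of length `H` all but
   `C H ^ (1 - δ)` of the multiples `a` of `N` in the Bohr set are infinitely often differences of two primes (for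
   arbitrarily large `x` there are at least `x / (log x) ^ B` primes `q ≤ x` with `a + q` prime).
2. For every `ε > 0` there is a `B` and for every residue class an `L` such that for ALL `A ≥ 0`, `H ≥ L` and ALL
   `x ≥ 100 (A + H)` at least the proportion `1 - ε` of the even numbers `a` of the class in the window `(A, A + H]`
   are differences `p - q` of two primes with at least `x / (log x) ^ B` primes `q ≤ x`. So (with
   `x = 100 (A + H)`) in every window of BOUNDED length, wherever it is, almost all even numbers are differences of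
   two primes which are at most a constant times as large as the numbers of the window.

In both cases this concerns the set of the even numbers which are not differences of two primes: it is very thin in a
Bohr set, or it has upper Banach density zero with primes of the smallest possible order of magnitude. This is a
companion of `AlmostAllOrThin`, where (1) holds at every scale `x` and (2) for arbitrarily large `x` only; it is
the analogue for differences of `MP_7b7e48_nt.AlmostAllOrPolignac` (starting files), which treats sums. The proof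
uses the coloured Maynard-Tao theorem with the constant `18/5` and the structure theorem of the starting files
(`Pool.Agent.Y827.RO.lamRD`, `Pool.Agent.N679.BH.str2`).
-/

set_option autoImplicit false

namespace Pool.Agent.Results.MP_70e905_nt.BoundedWindowsAtEveryScale

open Finset Filter

/-- the number of the primes `q ≤ x` for which `a + q` is prime -/
noncomputable def count (a : ℤ) (x : ℕ) : ℕ :=
  {q : ℕ | q ≤ x ∧ q.Prime ∧ ∃ p : ℕ, p.Prime ∧ (p : ℤ) - q = a}.ncard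

/-- `a` is infinitely often a difference of two primes `p - q`; moreover, there are arbitrarily large `x` with at
least `x / (log x) ^ B` primes `q ≤ x` for which `a + q` is prime -/
def Polignac (B : ℕ) (a : ℤ) : Prop :=
  {q : ℕ | q.Prime ∧ ∃ p : ℕ, p.Prime ∧ (p : ℤ) - q = a}.Infinite ∧
    ∃ᶠ x : ℕ in atTop, (x : ℝ) / (Real.log x) ^ B ≤ (count a x : ℝ)

/-- the integer `a` is in the Bohr set of the finite set `Λ` of points of the unit circle and the radius `ρ` -/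
def InBohr (Λ : Finset Circle) (ρ : ℝ) (a : ℤ) : Prop := ∀ θ ∈ Λ, ‖((θ ^ a : Circle) : ℂ) - 1‖ < ρ

theorem count_eq (a : ℤ) (x : ℕ) : count a x = Pool.Agent.N679.PD.cnt a 1 x := by
  unfold count Pool.Agent.N679.PD.cnt
  congr 1
  ext q
  have e : ∀ p : ℕ, ((p : ℤ) - q = a) ↔ (a + (q : ℤ) * 1 = p) := fun p => by
    constructor
    · intro h; rw [← h]; ring
    · intro h; rw [← h]; ring
  simp only [Set.mem_ofPred_eq, e]

theorem pol_of {B : ℕ} {a : ℤ} (h : Pool.Agent.N679.PD.Oft B a 1) : Polignac B a := by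
  refine ⟨?_, ?_⟩
  · have h1 := Pool.Agent.R493.OT.infinite_of_freq (B := B) h.2
    have e : ∀ q p : ℕ, ((p : ℤ) - q = a) ↔ (a + (q : ℤ) * 1 = p) := fun q p => by
      constructor
      · intro h; rw [← h]; ring
      · intro h; rw [← h]; ring
    simp only [e]
    exact h1
  · simp only [count_eq]
    exact h.2

/-- roots on the circle -/
theorem root (N : ℕ) (hN : 1 ≤ N) (θ : Circle) : ∃ ξ : Circle, ∀ s : ℤ, ξ ^ ((N : ℤ) * s) = θ ^ s := by
  obtain ⟨t, ht⟩ : ∃ t : ℝ, Circle.exp t = θ := ⟨_, Circle.exp_arg θ⟩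
  refine ⟨Circle.exp (t / N), fun s => ?_⟩
  have hN0 : (N : ℝ) ≠ 0 := by
    have : (0 : ℝ) < N := by exact_mod_cast hN
    exact this.ne'
  have h1 : Circle.exp (t / N) ^ N = θ := by
    rw [← ht, ← Circle.exp_natCast_mul]
    congr 1
    field_simp
  rw [zpow_mul, zpow_natCast, h1]

theorem adm_iff (a : ℤ) : Pool.Agent.N679.PD.Adm a ((1 : ℕ) : ℤ) ↔ 2 ∣ a := by
  unfold Pool.Agent.N679.PD.Adm
  simp

/-- the even number `a` has many prime pairs at the scale `x` -/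
def GoodAt (B x : ℕ) (a : ℤ) : Prop :=
  Pool.Agent.N679.PD.Adm a ((1 : ℕ) : ℤ) ∧ (x : ℝ) / (Real.log x) ^ B ≤ count a x

open Classical in
theorem result :
    -- (1) Polignac numbers in a Bohr set
    (∃ N B : ℕ, 1 ≤ N ∧ ∃ (Λ : Finset Circle) (ρ δ C : ℝ), 0 < ρ ∧ 0 < δ ∧ ∀ (A : ℤ) (H : ℕ), 1 ≤ H →
      (((Ioc A (A + H)).filter (fun a : ℤ => (N : ℤ) ∣ a ∧ InBohr Λ ρ a ∧ ¬ Polignac B a)).card : ℝ) ≤
        C * (H : ℝ) ^ (1 - δ)) ∨
    -- (2) all windows, at every scale `x`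
    (∀ ε : ℝ, 0 < ε → ∃ B : ℕ, ∀ N : ℕ, 1 ≤ N → ∀ r : ℤ, ∃ L : ℕ, ∀ A H x : ℕ, L ≤ H → 100 * (A + H) ≤ x →
      (1 - ε) * (((Ioc (A : ℤ) (A + H)).filter (fun a : ℤ => (N : ℤ) ∣ a - r ∧ 2 ∣ a)).card : ℝ) ≤
        (((Ioc (A : ℤ) (A + H)).filter (fun a : ℤ => (N : ℤ) ∣ a - r ∧ 2 ∣ a ∧
          (x : ℝ) / (Real.log x) ^ B ≤ count a x)).card : ℝ)) := by
  by_cases h1 : ∃ N B : ℕ, 1 ≤ N ∧ ∃ (Λ : Finset Circle) (ρ δ C : ℝ), 0 < ρ ∧ 0 < δ ∧ ∀ (A : ℤ) (H : ℕ), 1 ≤ H →
      (((Ioc A (A + H)).filter (fun a : ℤ => (N : ℤ) ∣ a ∧ InBohr Λ ρ a ∧ ¬ Polignac B a)).card : ℝ) ≤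
        C * (H : ℝ) ^ (1 - δ)
  · exact Or.inl h1
  right
  push Not at h1
  intro ε hε
  obtain ⟨ε', hε'0, hε'1, hε'2⟩ : ∃ ε' : ℝ, 0 < ε' ∧ ε' ≤ 1 ∧ 2 * ε' ≤ ε :=
    ⟨min (ε / 2) 1, lt_min (by linarith) (by norm_num), min_le_right _ _, by
      linarith [min_le_left (ε / 2) 1]⟩
  obtain ⟨n₀, hn₀⟩ := Pool.Agent.N679.BH.str2 Pool.Agent.N679.BH.s_kn2 ε' hε'0 hε'1
  set n : ℕ := max n₀ 1 with hn
  have hn1 : 1 ≤ n := le_max_right _ _
  obtain ⟨K, hK, hmany⟩ := Pool.Agent.N679.GB.many2 n hn1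
  refine ⟨4 * n * K + 3, fun N₀ hN₀ r => ?_⟩
  by_contra hcon
  push Not at hcon
  set N : ℕ := N₀ * (2 * (4 * n * K).factorial) with hN
  have hfac : 0 < (4 * n * K).factorial := Nat.factorial_pos _
  have hN1 : 1 ≤ N := by
    rw [hN]
    have : 0 < N₀ * (2 * (4 * n * K).factorial) := by positivity
    exact this
  have h2 : 2 ∣ N := ⟨N₀ * (4 * n * K).factorial, by rw [hN]; ring⟩
  have hNN : N₀ ∣ N := Dvd.intro _ rfl
  have hNp : ∀ p : ℕ, p.Prime → p ≤ 4 * n * K → p ∣ N := by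
    intro p hp hle
    refine ((Nat.Prime.dvd_factorial hp).2 hle).trans ⟨N₀ * 2, ?_⟩
    rw [hN]; ring
  obtain ⟨α, hα0, hα1, hα, hU⟩ := Pool.Agent.T9h25.WS.dens3 (d := 1) (N := N) (N₀ := N₀) (C := 100) hN1 h2
    (one_dvd _) hNN r
    (GoodAt (4 * n * K + 3)) (fun x a h => h.1) (2 * ε') ε' hε'0.le (by linarith) (by
      intro L
      obtain ⟨A, H, x, hLH, hx, h⟩ := hcon L
      refine ⟨x, A, H, by omega, hLH, hx, ?_⟩
      unfold GoodAt
      simp only [adm_iff]
      refine h.trans_le ?_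
      exact mul_le_mul_of_nonneg_right (by linarith) (Nat.cast_nonneg _))
  obtain ⟨U, hU1, hU2, hU3⟩ := Pool.Agent.T9h25.WS.limset3 (ι := ℕ × ℕ)
    (Q := fun R i => R ≤ i.1 ∧ R ≤ i.2 ∧ 100 * (N * (i.2 + R)) ≤ i.1 + 100 * N)
    (fun R R' i h hQ => ⟨h.trans hQ.1, h.trans hQ.2.1, le_trans
      (Nat.mul_le_mul_left _ (Nat.mul_le_mul_left _ (Nat.add_le_add_left h _))) hQ.2.2⟩)
    (P := fun i s => ¬ GoodAt (4 * n * K + 3) i.1 (α + N * ((i.2 : ℤ) + s))) (ρ := ε') (by
      intro R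
      obtain ⟨x, u, hx, hu, hxu, h⟩ := hU R
      exact ⟨(x, u), ⟨hx, hu, hxu⟩, h⟩)
  obtain ⟨q, K', Λ, δ, hq, hK', hδ, hstr⟩ := hn₀ n (le_max_left _ _) 1 le_rfl U hU1 K hK
  obtain ⟨C, hC⟩ := Pool.Agent.N679.SD.rect K' hK'
  have hK'0 : (0 : ℝ) < K' := by exact_mod_cast hK'
  choose ξ hξ using root N hN1
  obtain ⟨A, H, hH, hcard⟩ := h1 (N * q) (4 * n * K + 3) (Nat.mul_pos hN1 hq) (Λ.image ξ) δ (1 / (K' : ℝ)) C hδ
    (by positivity)
  obtain ⟨l, l', hl, hl', hll⟩ := hC N q h2 hN1 hq A H hH _ (filter_subset _ _)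
    (fun a ha => (mem_filter.1 ha).2.1) hcard
  obtain ⟨X, Z, hX, hZ, _, hXV, hZV, hS⟩ := hstr {s : ℤ | ¬ Polignac (4 * n * K + 3) (N * s)}
    ⟨l, l', hl, hl', fun i j => by
      have h3 := (mem_filter.1 (hll i j)).2
      refine ⟨h3.2.2, fun θ hθ => ?_⟩
      have h4 := h3.2.1 (ξ θ) (mem_image_of_mem ξ hθ)
      rw [hξ] at h4
      exact h4⟩
  obtain ⟨R₁, hR₁⟩ : ∃ R₁ : ℕ, ∀ a i k a' j k', Z a' j k' - ((1 : ℕ) : ℤ) * X a i k ≤ R₁ := by
    obtain ⟨M, hM⟩ := (Set.finite_range (fun x : (Bool × Fin n × Fin K) × (Bool × Fin n × Fin K) =>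
      Z x.2.1 x.2.2.1 x.2.2.2 - ((1 : ℕ) : ℤ) * X x.1.1 x.1.2.1 x.1.2.2)).bddAbove
    exact ⟨M.toNat, fun a i k a' j k' => (hM ⟨((a, i, k), (a', j, k')), rfl⟩).trans (Int.self_le_toNat M)⟩
  refine Pool.Agent.T9h25.WS.glue3 hmany hN1 h2 hNp hα X Z hX hZ
    (fun i k k' h => hXV i k k' (pol_of h)) (fun i k k' h => hZV i k k' (pol_of h)) (fun R => ?_)
  obtain ⟨⟨x, u⟩, ⟨hx, hu, hxu⟩, hbad⟩ := hU3 (max R R₁)
  simp only at hx hu hxu hbad
  refine ⟨x, u, (le_max_left _ _).trans hx, (le_max_left _ _).trans hu, le_trans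
    (Nat.mul_le_mul_left _ (Nat.mul_le_mul_left _ (Nat.add_le_add_left (le_max_left _ _) _))) hxu,
    fun S S' hd hd' hcard => ?_⟩
  obtain ⟨a, a', i, hi, j, hj, h⟩ := hS S S' hd hd' hcard
  refine ⟨a, a', i, hi, j, hj, fun k k' => ?_⟩
  have h3 := hbad _ (h k k') ((hR₁ a i k a' j k').trans (by exact_mod_cast le_max_right _ _))
  have e : α + N * ((u : ℤ) + (Z a' j k' - ((1 : ℕ) : ℤ) * X a i k)) =
      α + N * ((u : ℤ) + (Z a' j k' - X a i k)) := by push_cast; ring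
  rw [e] at h3
  by_contra hno
  push Not at hno
  refine h3 ⟨?_, ?_⟩
  · refine Pool.Agent.N679.SD.adm_shift h2 (by exact_mod_cast one_dvd N) ?_ hα
    rw [add_sub_cancel_left]
    exact Dvd.intro _ rfl
  · rw [count_eq]
    exact hno

end Pool.Agent.Results.MP_70e905_nt.BoundedWindowsAtEveryScale
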