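import Pool.Agent.T9h51.RC.Main

/-!
# Differences of two primes in ALL residue classes, at ALL heights, for the moduli near almost all members of thin families

The families are arbitrary finite families of integers up to `B N` whose additive energy of some order `h` is at most
`log ^ C N` times the least possible one. They may have as few as `N ^ (1 / h)` members. Examples are all sets with
different sums of `h` elements (`h = 2`: Sidon sets) with at least `N ^ (1 / h) / log ^ C N` elements, and the values of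
polynomials of degree `d ≥ 2` at the integers whose digits lie in arbitrary sets of at least two digits.

The definition used: `Pool.Agent.H560R3.GB.sing n`, the singular series `2 C₂ ∏_{p ∣ n, p > 2} (p - 1) / (p - 2)`, where
`C₂ = ∏_{p > 2} (1 - 1 / (p - 1) ^ 2)`.

Method. (i) For `x ≤ N ^ 2`: the numbers `a i + m v i`, `m ≤ M`, where the `a i` are ARBITRARY, form a family of nearly
minimal energy (of a larger order) at the scale `N M`, as soon as `M` is at least a power of `N`
(`Pool.Agent.T9h51.RC.cls_energy`): by Weyl's differencing the exponential sum over this family is at most the exponential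
sum over the products `m v i`, which was treated for MP_92f640_nt.AllHeights. As the `a i` are arbitrary, this gives
all the residue classes modulo almost all the `v i` at once. The theorem of the starting files on the prime pairs for the
members of families of small energy (`Pool.Agent.TH935.DF.fam_c`) is applied at all dyadic scales. (ii) For larger `x` the
moduli up to `x ^ (7 / 12)` which are not divisible by one of `(log x) ^ c` exceptional integers larger than `(log x) ^ T`
are known to be good (`Pool.Agent.T9h57.GD`, for the hand-in PairsLargeRadical; `c` does not depend on `T`); by the minimal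
energy the exceptional integers of all the dyadic scales together divide few of the `v i + s`
(`Pool.Agent.T9h51.PE.no_divisors`).
-/

set_option autoImplicit false

namespace Pool.Agent.Results.MP_70e905_nt.DifferencesAllHeights

open Finset Polynomial
open Pool.Agent.H560R3.GB (sing)

/-- `n` is a difference of two primes. -/
def IsDifference (n : ℕ) : Prop := ∃ p q : ℕ, p.Prime ∧ q.Prime ∧ p = q + n

/-- The number of the primes `p` with `u < p ≤ v` for which `p + n` is a prime, too. -/
noncomputable def pairs (n : ℕ) (u v : ℝ) : ℕ := {p : ℕ | u < p ∧ (p : ℝ) ≤ v ∧ p.Prime ∧ (p + n).Prime}.ncard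

/-- The formula of Hardy and Littlewood for the prime pairs with difference `n`, with a relative error of at most `ε`, in
ALL the windows `(u, v]` with `0 ≤ u`, `v ≤ n log ^ (E + T) n` and `v - u ≥ n log ^ E n`. -/
def Formula (ε : ℝ) (E T n : ℕ) : Prop :=
  ∀ u v : ℝ, 0 ≤ u → v ≤ n * Real.log n ^ (E + T) → n * Real.log n ^ E ≤ v - u →
    |(pairs n u v : ℝ) - sing n * (v - u) / Real.log n ^ 2| ≤ ε * (sing n * (v - u) / Real.log n ^ 2)

/-- The even `n ≡ b mod q` with `0 < n ≤ x` which are not differences of two primes, or for which the formula is false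
(a finite set). -/
def exceptional (ε : ℝ) (E T : ℕ) (x : ℝ) (q : ℕ) (b : ℤ) : Set ℕ :=
  {n : ℕ | 0 < n ∧ (n : ℝ) ≤ x ∧ 2 ∣ n ∧ (n : ℤ) ≡ b [ZMOD q] ∧ ¬ (IsDifference n ∧ Formula ε E T n)}

/-- For ALL the integers `q ≥ 1` with `|q - v| ≤ L ^ W`, ALL the residue classes `b mod q` and ALL real `x ≥ q ^ (1 + δ)`
(for the multiples of `q`: ALL real `x ≥ q`) at most `x / (q log ^ A x)` of the even `n ≤ x`, `n ≡ b mod q`, are
exceptional, with `E = A + 15`. -/
def AllClasses (ε δ : ℝ) (A T W : ℕ) (L : ℝ) (v : ℤ) : Prop :=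
  ∀ q : ℕ, 1 ≤ q → |(q : ℝ) - v| ≤ L ^ W → ∀ x : ℝ, (q : ℝ) ≤ x → ∀ b : ℤ, ((q : ℤ) ∣ b ∨ (q : ℝ) ^ (1 + δ) ≤ x) →
    ((exceptional ε (A + 15) T x q b).ncard : ℝ) ≤ x / (q * Real.log x ^ A)

/-- The additive energy of order `h` of a finite family `v` of integers: the number of the solutions of
`v (i 1) + ⋯ + v (i h) = v (j 1) + ⋯ + v (j h)`. -/
noncomputable def energy (h : ℕ) {ι : Type} [Fintype ι] (v : ι → ℤ) : ℕ :=
  Nat.card {q : (Fin h → ι) × (Fin h → ι) // ∑ j, v (q.1 j) = ∑ j, v (q.2 j)}

/-- The sums of `h` elements of `A` are different, up to the order of the summands (`h = 2`: `A` is a Sidon set). -/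
def DifferentSums (h : ℕ) (A : Finset ℤ) : Prop :=
  ∀ x y : Fin h → ℤ, (∀ j, x j ∈ A) → (∀ j, y j ∈ A) → ∑ j, x j = ∑ j, y j → ∃ σ : Equiv.Perm (Fin h), ∀ j, x j = y (σ j)

/-- The integers below `b ^ k` whose `i`-th digit in base `b` belongs to `D i` for all `i < k`. -/
def S (b : ℕ) (D : ℕ → Finset ℕ) (k : ℕ) : Finset ℕ := (range (b ^ k)).filter (fun n : ℕ => ∀ i < k, n / b ^ i % b ∈ D i)

lemma pairs_eq (n : ℕ) (u v : ℝ) (hu : 0 ≤ u) (hv : 0 ≤ v) : pairs n u v = Pool.Agent.T9h51.RC.win n u v := by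
  unfold pairs Pool.Agent.T9h51.RC.win
  rw [← Set.ncard_coe_finset]
  congr 1
  ext p
  simp only [Set.mem_ofPred_eq, coe_filter, mem_Ioc]
  rw [Nat.floor_lt hu, Nat.le_floor_iff hv]
  tauto

lemma formula_of (ε : ℝ) (E T n : ℕ) (h : Pool.Agent.T9h51.RC.Rep (min ε (1 / 2)) E T n) : Formula ε E T n := by
  intro u v hu hv huv
  have hpow : 0 ≤ (n : ℝ) * Real.log n ^ E := mul_nonneg (Nat.cast_nonneg _) (pow_nonneg (Real.log_natCast_nonneg _) _)
  rw [pairs_eq n u v hu (by linarith)]
  refine (h u v hu hv huv).trans (mul_le_mul_of_nonneg_right (min_le_left _ _) ?_)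
  have hs : 1 ≤ sing n := Pool.Agent.R460.GS.one_le_sing n
  have h1 : 0 ≤ v - u := by linarith
  have h2 : 0 ≤ sing n := by linarith
  exact div_nonneg (mul_nonneg h2 h1) (sq_nonneg _)

theorem allClasses_of (ε δ : ℝ) (A T W : ℕ) (L : ℝ) (v : ℤ)
    (h : Pool.Agent.T9h51.RC.GoodC (Pool.Agent.T9h51.RC.Rep (min ε (1 / 2)) (A + 15) T) δ A W L v) : AllClasses ε δ A T W L v := by
  intro q hq1 hq2 x hx b hb
  refine le_trans ?_ (h q hq1 hq2 x hx b hb)
  apply Nat.cast_le.2
  apply Set.ncard_le_ncard _ (Pool.Agent.T9h51.RC.exc_finite _ _ _ _)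
  rintro n ⟨h1, h2, h3, h4, h5⟩
  refine ⟨h1, h2, h3, h4, fun hr => h5 ⟨?_, formula_of ε _ T n hr⟩⟩
  obtain ⟨p, hp1, hp2⟩ := Pool.Agent.T9h51.RC.rep_diff (min ε (1 / 2)) (min_le_right _ _) (A + 15) T n h1 h3 hr
  exact ⟨p + n, p, hp2, hp1, rfl⟩

theorem AllClasses.anti {ε δ : ℝ} {A T W : ℕ} (L L' : ℝ) (v : ℤ) (hL : 1 ≤ L) (hLL : L ≤ L') (h : AllClasses ε δ A T W L' v) :
    AllClasses ε δ A T W L v :=
  fun q hq1 hq2 => h q hq1 (hq2.trans (pow_le_pow_left₀ (by linarith) hLL _))

theorem allG (ε δ : ℝ) (hε : 0 < ε) (hδ : 0 < δ) (A T W U : ℕ) : Pool.Agent.T9h51.ME.Gen.AllG (AllClasses ε δ A T W) U := by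
  classical
  intro h B C hh
  obtain ⟨N₁, h1⟩ := Pool.Agent.T9h51.RC.all_classes (min ε (1 / 2)) (lt_min hε (by norm_num)) (min_le_right _ _) (A + 15) T A
    le_rfl δ hδ W U h B C hh
  refine ⟨N₁, fun N hN ι _ v hv hE => ?_⟩
  refine le_trans ?_ (h1 N hN ι v hv hE)
  apply Nat.cast_le.2
  apply card_le_card
  intro i hi
  rw [mem_filter] at hi ⊢
  exact ⟨hi.1, fun hg => hi.2 (allClasses_of ε δ A T W _ _ hg)⟩

open Classical in
/-- **Differences of two primes in all classes at all heights.** Let `ε, δ > 0`, `A`, `T`, `W` and `U` be fixed.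

(1) Let `h ≥ 1`, `B`, `C` be fixed and let `N` be large. Let `v i`, `i ∈ ι`, be a finite family of integers with
`|v i| ≤ B N` whose additive energy of order `h` is at most `log ^ C N` times `(#ι) ^ (2 h) / N`. Then for all `i ∈ ι`,
with at most `#ι / log ^ U N` exceptions, ALL the integers `q ≥ 1` with `|q - v i| ≤ log ^ W N` have the following property
for ALL the residue classes `b mod q` and ALL real `x ≥ q ^ (1 + δ)` (for the multiples of `q`: for ALL `x ≥ q`): all but
at most `x / (q log ^ A x)` of the even `n ≤ x`, `n ≡ b mod q`, are differences of two primes and satisfy the formula of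
Hardy and Littlewood for the number of the prime pairs `p, p + n` with `u < p ≤ v`, with a relative error of at most `ε`,
in ALL the windows `(u, v]` with `0 ≤ u`, `v ≤ n log ^ (E + T) n`, `v - u ≥ n log ^ E n`, where `E = A + 15`.

(2) In particular this holds for all sets `V` of integers in `[-B N, B N]` the sums of `h` elements of which are different,
with at least `(N / log ^ C N) ^ (1 / h)` elements (for `h = 2`: for all Sidon sets with at least
`N ^ (1 / 2) / log ^ (C / 2) N` elements): all the elements of `V`, with at most `#V / log ^ U N` exceptions, have this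
property.

(3) Let `b ≥ 2`, `d ≥ 2`, `B` and `κ ≠ 0` be fixed and let `k` be large. Then for ALL sets `D 0, …, D (k - 1)` of at least
two digits in base `b` and ALL polynomials `f` with integer coefficients, of degree `d` and with leading coefficient `κ`,
such that `|f(n)| ≤ B b ^ (d k)` for all `n < b ^ k`: for all the integers `n < b ^ k` whose `i`-th digit lies in `D i` for
all `i < k`, with a proportion of at most `1 / k ^ U` of exceptions, `v = f(n)` has this property, with `k` in place of
`log N`. -/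
theorem result (ε δ : ℝ) (hε : 0 < ε) (hδ : 0 < δ) (A T W U : ℕ) :
    (∀ h B C : ℕ, 1 ≤ h → ∃ N₀ : ℕ, ∀ N : ℕ, N₀ ≤ N →
      (∀ (ι : Type) [Fintype ι] (v : ι → ℤ), (∀ i, |v i| ≤ B * N) →
        (energy h v : ℝ) * N ≤ Real.log N ^ C * (Fintype.card ι : ℝ) ^ (2 * h) →
        ((univ.filter (fun i => ¬ AllClasses ε δ A T W (Real.log N) (v i))).card : ℝ) ≤ Fintype.card ι / Real.log N ^ U) ∧
      (∀ V : Finset ℤ, (∀ a ∈ V, |a| ≤ B * N) → DifferentSums h V → (N : ℝ) ≤ Real.log N ^ C * (V.card : ℝ) ^ h →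
        ((V.filter (fun a => ¬ AllClasses ε δ A T W (Real.log N) a)).card : ℝ) ≤ V.card / Real.log N ^ U)) ∧
    (∀ b d B : ℕ, 2 ≤ b → 2 ≤ d → ∀ κ : ℤ, κ ≠ 0 → ∃ k₀ : ℕ, ∀ k : ℕ, k₀ ≤ k →
      ∀ D : ℕ → Finset ℕ, (∀ i < k, D i ⊆ range b ∧ 2 ≤ (D i).card) →
      ∀ f : ℤ[X], f.natDegree = d → f.leadingCoeff = κ → (∀ n < b ^ k, |f.eval (n : ℤ)| ≤ B * ((b ^ (d * k) : ℕ) : ℤ)) →
      (((S b D k).filter (fun n : ℕ => ¬ AllClasses ε δ A T W k (f.eval (n : ℤ)))).card : ℝ) ≤ (S b D k).card / (k : ℝ) ^ U) := by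
  have hP := allG ε δ hε hδ A T W U
  refine ⟨fun h B C hh => ?_, fun b d B hb hd κ hκ => ?_⟩
  · obtain ⟨n1, h1⟩ := hP h B C hh
    obtain ⟨n2, h2⟩ := Pool.Agent.T9h51.ME.Gen.sidonSet hP h B C hh
    exact ⟨n1 + n2, fun N hN => ⟨h1 N (by omega), h2 N (by omega)⟩⟩
  · exact Pool.Agent.T9h51.ME.Gen.poly hP (fun L L' v hL hLL => AllClasses.anti L L' v hL hLL) b d B hb hd κ hκ

end Pool.Agent.Results.MP_70e905_nt.DifferencesAllHeights
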