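import Pool.Agent.T9h57.GD.Conv

/-!
# Differences of two primes in ALL residue classes of the moduli up to `x ^ (2 / 3 - ρ)`: the exceptional moduli are
# multiples of few integers, all of them with a large radical

There is a set `D` of at most `(log x) ^ c` integers, the RADICALS of which are larger than any given power of `log x`,
such that for every modulus `m ≤ x ^ (2 / 3 - ρ)` which is not divisible by a member of `D` and for EVERY residue
class `b` modulo `m`, in particular for the multiples of `m`, all but at most `x / (m (log x) ^ A)` of the even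
integers `h ≤ x / (log x) ^ (C + 7)`, `h ≡ b (mod m)`, are differences of two primes; and for all `y ≤ x` the number
of primes `p ≤ y` with `p + h` prime is given by the formula of Hardy and Littlewood with an error of at most
`x / (log x) ^ C`, also if `p` is restricted to a residue class of a modulus up to `(log x) ^ B`.

In particular no modulus `m ≤ x ^ (2 / 3 - ρ)` whose radical `∏_{p ∣ m} p` is at most a power of `log x` is
exceptional, for example no power `m = r ^ k` of an integer `r ≤ (log x) ^ B`: almost all even multiples of `r ^ k`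
are differences of two primes.

Definition used: `Pool.Agent.H560R3.GB.sing h = 2 C₂ ∏_{p ∣ h, p > 2} (p - 1) / (p - 2)`, where
`C₂ = ∏_{p > 2} (1 - 1 / (p - 1) ^ 2)`.

Proof (`T9h57/PK`, `T9h57/GL`, `T9h57/GD`). Let `χ` be a character modulo `d`, where the radical `r` of `d` is at most
a power of `log N`. By the formula of Postnikov `χ(1 + r u) = e(f(u))` for a polynomial `f` of a degree of about
`log d / log r` whose coefficients have denominators of controlled sizes; Vinogradov's method (the mean value theorem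
applied to double sums over `1 + r ^ s (u + v w)`) then bounds short sums of `χ(n) n ^ (-i t)`, so that `L(s, χ)`
grows slowly near the line `Re s = 1` and has no zeros in a wide region there, unless `χ` is real, and the conductor
of a real character is at most `8 r`. So the sums over primes twisted by `χ` save every power of `log x` already for
`x ≥ d ^ κ`, `κ > 0`. For all primitive characters of conductors up to `N ^ (2 / 3 - ρ)` but at most
`(log N) ^ c` of them the sums over primes are small, by the large sieve for high powers of the short factors in the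
decomposition of the indicator function of the primes into sums of type I of the level `N ^ (2 / 3)` and bilinear
sums in which one variable is between `N ^ κ` and `N ^ (1 / 3 + κ)` (`R460/GH`); the conductors of the exceptions,
divided by small factors, are the members of `D`, and they have a large radical by the former estimate. For a
modulus which is not divisible by a member of `D` the mean squares over all characters are small near the fractions
with small denominators, which the circle method in a residue class needs; away from these fractions the large sieve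
over the fractions `j / m` is used.
-/

set_option autoImplicit false

namespace Pool.Agent.Results.MP_70e905_nt.PairsLargeRadical

open Finset
open Pool.Agent.H560R3.GB (sing)

/-- The radical of `m`: the product of the primes dividing `m`. -/
def radical (m : ℕ) : ℕ := ∏ p ∈ m.primeFactors, p

/-- The number of the primes `p ≤ y`, `p ≡ a (mod q)`, such that `p + h` is a prime. -/
noncomputable def pairs (h : ℕ) (y : ℝ) (q a : ℕ) : ℕ :=
  Set.ncard {p : ℕ | p.Prime ∧ (p + h).Prime ∧ (p : ℝ) ≤ y ∧ p ≡ a [MOD q]}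

/-- The number of the residue classes `α` modulo `q` such that `α` and `α + h` are prime to `q`. -/
def classes (q h : ℕ) : ℕ := ((range q).filter (fun α => Nat.Coprime α q ∧ Nat.Coprime (α + h) q)).card

/-- The formula of Hardy and Littlewood for the number of the primes `p ≤ y`, `p ≡ a (mod q)`, with `p + h` prime,
with an error of at most `x / (log x) ^ C`, for all `2 ≤ y ≤ x`, all `q ≤ (log x) ^ B` and all `a` for which `a` and
`a + h` are prime to `q`. -/
def Formula (B C : ℕ) (x : ℝ) (h : ℕ) : Prop :=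
  ∀ q a : ℕ, 1 ≤ q → (q : ℝ) ≤ Real.log x ^ B → Nat.Coprime a q → Nat.Coprime (a + h) q →
    ∀ y : ℝ, 2 ≤ y → y ≤ x →
      |(pairs h y q a : ℝ) - sing h / classes q h * ∫ t in (2 : ℝ)..y, 1 / Real.log t ^ 2| ≤ x / Real.log x ^ C

/-- The even integers `0 < h ≤ x / (log x) ^ (C + 7)`, `h ≡ b (mod m)`, which are not the difference of two primes
or for which `Formula B C x h` is false. -/
def exceptional (B C : ℕ) (x : ℝ) (m : ℕ) (b : ℤ) : Set ℕ :=
  {h : ℕ | 0 < h ∧ (h : ℝ) ≤ x / Real.log x ^ (C + 7) ∧ 2 ∣ h ∧ (h : ℤ) ≡ b [ZMOD m] ∧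
    ¬ ((∃ p p' : ℕ, p.Prime ∧ p'.Prime ∧ (p' : ℤ) - p = h) ∧ Formula B C x h)}

open Classical in
lemma pairs_eq (h : ℕ) (y : ℝ) (hy : 0 ≤ y) (q a : ℕ) :
    pairs h y q a = ((range (⌊y⌋₊ + 1)).filter (fun p => p.Prime ∧ (p + h).Prime ∧ p ≡ a [MOD q])).card := by
  unfold pairs
  rw [← Set.ncard_coe_finset]
  congr 1
  ext p
  rw [Finset.mem_coe, mem_filter, mem_range, Nat.lt_succ_iff, Nat.le_floor_iff hy]
  constructor
  · rintro ⟨h1, h2, h3, h4⟩
    exact ⟨h3, h1, h2, h4⟩
  · rintro ⟨h3, h1, h2, h4⟩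
    exact ⟨h1, h2, h3, h4⟩

lemma pairs_le (h : ℕ) (y : ℝ) (hy : 0 ≤ y) (q a : ℕ) : Pool.Agent.R460.GQ.pairs h y a q ≤ pairs h y q a := by
  classical
  rw [pairs_eq h y hy]
  unfold Pool.Agent.R460.GQ.pairs
  apply card_le_card
  intro p hp
  rw [mem_filter] at hp ⊢
  exact ⟨hp.1, hp.2.1, hp.2.2.1, hp.2.2.2.2⟩

lemma le_pairs (h : ℕ) (y : ℝ) (hy : 0 ≤ y) (q a : ℕ) :
    pairs h y q a ≤ Pool.Agent.R460.GQ.pairs h y a q + (h + 1) := by
  classical
  rw [pairs_eq h y hy]
  unfold Pool.Agent.R460.GQ.pairs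
  have hsub : (range (⌊y⌋₊ + 1)).filter (fun p => p.Prime ∧ (p + h).Prime ∧ p ≡ a [MOD q]) ⊆
      (range (⌊y⌋₊ + 1)).filter (fun p => p.Prime ∧ (p + h).Prime ∧ (p : ℝ) + h ≤ y ∧ p ≡ a [MOD q]) ∪
      Icc (⌊y⌋₊ - h) ⌊y⌋₊ := by
    intro p hp
    rw [mem_filter, mem_range] at hp
    rw [mem_union, mem_filter, mem_range, mem_Icc]
    by_cases h' : p + h ≤ ⌊y⌋₊
    · left
      refine ⟨hp.1, hp.2.1, hp.2.2.1, ?_, hp.2.2.2⟩
      have h1 : ((p + h : ℕ) : ℝ) ≤ y := (Nat.le_floor_iff hy).1 h'
      push_cast at h1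
      exact h1
    · right
      omega
  refine (card_le_card hsub).trans ((card_union_le _ _).trans ?_)
  apply Nat.add_le_add_left
  rw [Nat.card_Icc]
  omega

lemma formula_of {B C : ℕ} {x : ℝ} {h : ℕ} (hL : 3 ≤ Real.log x) (hx : 0 < x) (hh1 : 0 < h)
    (hh : (h : ℝ) ≤ x / Real.log x ^ (C + 7)) (hH : Pool.Agent.R460.GQ.Holds B (C + 1) x h) :
    Formula B C x h := by
  intro q a hq1 hq ha hah y hy hyx
  have h1 := hH q a hq1 hq ha hah y hy hyx
  have e0 : Pool.Agent.R460.GQ.main h y q = sing h / classes q h * ∫ t in (2 : ℝ)..y, 1 / Real.log t ^ 2 := by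
    unfold Pool.Agent.R460.GQ.main sing classes
    ring
  rw [e0] at h1
  have h2 : (Pool.Agent.R460.GQ.pairs h y a q : ℝ) ≤ pairs h y q a := by
    exact_mod_cast pairs_le h y (by linarith) q a
  have h3 : (pairs h y q a : ℝ) ≤ Pool.Agent.R460.GQ.pairs h y a q + (h + 1) := by
    exact_mod_cast le_pairs h y (by linarith) q a
  obtain ⟨L, hLd⟩ : ∃ L, L = Real.log x := ⟨_, rfl⟩
  rw [← hLd] at hL hh h1 ⊢
  have hL0 : 0 < L := by linarith
  have hL1 : 1 ≤ L := by linarith
  have hdr : (1 : ℝ) ≤ h := by exact_mod_cast hh1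
  have h4' : x / L ^ (C + 7) * L ≤ x / L ^ (C + 1) := by
    have e : x / L ^ (C + 7) * L = x / L ^ (C + 6) := by
      rw [pow_succ L (C + 6)]
      field_simp
    rw [e]
    exact div_le_div_of_nonneg_left hx.le (by positivity) (pow_le_pow_right₀ hL1 (by omega))
  have h5 : x / L ^ C = x / L ^ (C + 1) * L := by
    rw [pow_succ]
    field_simp
  have h6 : 0 ≤ x / L ^ (C + 1) := by positivity
  have h7 : (h : ℝ) + 1 ≤ x / L ^ (C + 1) := by
    have h8 : (h : ℝ) + 1 ≤ h * L := by nlinarith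
    have h9 : (h : ℝ) * L ≤ x / L ^ (C + 7) * L := mul_le_mul_of_nonneg_right hh hL0.le
    linarith
  rw [h5]
  have h10 := abs_le.1 h1
  rw [abs_le]
  constructor <;> nlinarith

/-- the difference of two primes -/
lemma diff_of {B C : ℕ} (hC : 3 ≤ C) {x : ℝ} {h : ℕ} (hL : 20 ≤ Real.log x) (hx : Real.exp 20 ≤ x)
    (hF : Formula B C x h) : ∃ p p' : ℕ, p.Prime ∧ p'.Prime ∧ (p' : ℤ) - p = h := by
  have hx0 : 0 < x := (Real.exp_pos _).trans_le hx
  have hx2 : 100 ≤ x := by
    have h1 : (2.7 : ℝ) ≤ Real.exp 1 := by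
      have := Real.exp_one_gt_d9
      linarith
    have h2 : Real.exp 20 = Real.exp 1 ^ 20 := by
      rw [← Real.exp_nat_mul]
      norm_num
    have h3 : (2.7 : ℝ) ^ 20 ≤ Real.exp 1 ^ 20 := pow_le_pow_left₀ (by norm_num) h1 20
    rw [h2] at hx
    have h4 : (100 : ℝ) ≤ 2.7 ^ 20 := by norm_num
    linarith
  have h1 := hF 1 1 le_rfl (by rw [Nat.cast_one]; exact one_le_pow₀ (by linarith)) (Nat.coprime_one_right _)
    (Nat.coprime_one_right _) x (by linarith) le_rfl
  have hc : classes 1 h = 1 := by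
    unfold classes
    rw [filter_true_of_mem]
    · rfl
    · intro α _
      exact ⟨Nat.coprime_one_right _, Nat.coprime_one_right _⟩
  rw [hc, Nat.cast_one, div_one] at h1
  have h2 := Pool.Agent.W93.PP.sum_int x (by linarith)
  have h3 : Pool.Agent.W93.PP.Li2 x = ∫ t in (2 : ℝ)..x, 1 / Real.log t ^ 2 := rfl
  rw [← h3] at h1
  have h4 := Pool.Agent.R460.GS.one_le_sing h
  obtain ⟨L, hLd⟩ : ∃ L, L = Real.log x := ⟨_, rfl⟩
  rw [← hLd] at h1 hL
  have hL0 : 0 < L := by linarith
  have hfl : x - 1 < (⌊x⌋₊ : ℝ) := Nat.sub_one_lt_floor x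
  have h5 : ((⌊x⌋₊ : ℝ) - 1) * (1 / L ^ 2) ≤ ∑ n ∈ Icc 2 ⌊x⌋₊, 1 / Real.log (n : ℝ) ^ 2 := by
    have hfl1 : 1 ≤ ⌊x⌋₊ := Nat.le_floor (by rw [Nat.cast_one]; linarith)
    have e1 : ((⌊x⌋₊ : ℝ) - 1) * (1 / L ^ 2) = ∑ _n ∈ Icc 2 ⌊x⌋₊, 1 / L ^ 2 := by
      rw [sum_const, Nat.card_Icc, nsmul_eq_mul, show ⌊x⌋₊ + 1 - 2 = ⌊x⌋₊ - 1 by omega, Nat.cast_sub hfl1,
        Nat.cast_one]
    rw [e1]
    refine sum_le_sum fun n hn => ?_
    rw [mem_Icc] at hn
    have hn2 : (2 : ℝ) ≤ n := by exact_mod_cast hn.1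
    have hl0 : 0 < Real.log n := Real.log_pos (by linarith)
    have hnx : (n : ℝ) ≤ x := (Nat.le_floor_iff hx0.le).1 hn.2
    have hln : Real.log n ≤ L := by rw [hLd]; exact Real.log_le_log (by linarith) hnx
    exact div_le_div_of_nonneg_left zero_le_one (by positivity) (pow_le_pow_left₀ hl0.le hln 2)
  have h6 := (abs_le.1 h2).2
  have h7 : x / L ^ C ≤ x / L ^ 3 :=
    div_le_div_of_nonneg_left hx0.le (by positivity) (pow_le_pow_right₀ (by linarith) hC)
  have h7' : x / L ^ 3 ≤ x / L ^ 2 / 10 := by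
    rw [div_div, div_le_div_iff₀ (by positivity) (by positivity)]
    have : L ^ 2 * 10 ≤ L ^ 3 := by
      rw [show L ^ 3 = L ^ 2 * L by ring]
      exact mul_le_mul_of_nonneg_left (by linarith) (by positivity)
    nlinarith
  -- `x / L ^ 2` is large
  have h8 : 50 ≤ x / L ^ 2 := by
    rw [le_div_iff₀ (by positivity)]
    have hxe : x = Real.exp L := by rw [hLd, Real.exp_log hx0]
    rw [hxe]
    have k1 : L ^ 5 / (Nat.factorial 5 : ℝ) ≤ Real.exp L := Real.pow_div_factorial_le_exp L hL0.le 5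
    refine le_trans ?_ k1
    rw [le_div_iff₀ (by positivity)]
    have k2 : (Nat.factorial 5 : ℝ) = 120 := by norm_num [Nat.factorial]
    rw [k2]
    have k3 : (20 : ℝ) ^ 3 ≤ L ^ 3 := pow_le_pow_left₀ (by norm_num) hL 3
    have k4 : L ^ 5 = L ^ 2 * L ^ 3 := by ring
    rw [k4]
    have k5 : 50 * L ^ 2 * 120 = L ^ 2 * 6000 := by ring
    rw [k5]
    apply mul_le_mul_of_nonneg_left _ (by positivity)
    linarith
  have h9 : x / L ^ 2 / 2 ≤ Pool.Agent.W93.PP.Li2 x := by
    have k1 : (x - 2) * (1 / L ^ 2) ≤ ((⌊x⌋₊ : ℝ) - 1) * (1 / L ^ 2) :=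
      mul_le_mul_of_nonneg_right (by linarith) (by positivity)
    have k2 : (x - 2) * (1 / L ^ 2) = x / L ^ 2 - 2 / L ^ 2 := by ring
    have k3 : 2 / L ^ 2 ≤ 1 := by
      rw [div_le_one (by positivity)]
      nlinarith
    linarith
  have h10 : 0 < pairs h x 1 1 := by
    have k1 := (abs_le.1 h1).1
    have k2 : Pool.Agent.W93.PP.Li2 x ≤ sing h * Pool.Agent.W93.PP.Li2 x := by
      have : 0 ≤ Pool.Agent.W93.PP.Li2 x := by
        have : 0 ≤ x / L ^ 2 / 2 := by positivity
        linarith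
      nlinarith
    have k3 : (0 : ℝ) < pairs h x 1 1 := by
      have : 0 < x / L ^ 2 := by positivity
      linarith
    exact_mod_cast k3
  unfold pairs at h10
  obtain ⟨p, hp⟩ := Set.nonempty_of_ncard_ne_zero h10.ne'
  exact ⟨p, p + h, hp.1, hp.2.1, by push_cast; ring⟩

/-- For all `ρ > 0`, `A`, `B` and `C ≥ 3` there is `c` such that for all `T` and all sufficiently large real `x` there
is a finite set `D` of at most `(log x) ^ c` integers, the radical of each of which is larger than `(log x) ^ T`, with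
the following property. Let `1 ≤ m ≤ x ^ (2 / 3 - ρ)` be an integer which is not divisible by a member of `D`. Then
for EVERY integer `b` all but at most `x / (m (log x) ^ A)` of the even integers `0 < h ≤ x / (log x) ^ (C + 7)`,
`h ≡ b (mod m)`, are differences of two primes and satisfy `Formula B C x h`. -/
theorem result (ρ : ℝ) (hρ : 0 < ρ) (A B C : ℕ) (hC : 3 ≤ C) :
    ∃ c : ℕ, ∀ T : ℕ, ∃ x₀ : ℝ, ∀ x : ℝ, x₀ ≤ x → ∃ D : Finset ℕ, (D.card : ℝ) ≤ Real.log x ^ c ∧
      (∀ d ∈ D, Real.log x ^ T < (radical d : ℝ)) ∧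
      ∀ m : ℕ, 1 ≤ m → (m : ℝ) ≤ x ^ (2 / 3 - ρ) → (∀ d ∈ D, ¬ d ∣ m) → ∀ b : ℤ,
        (exceptional B C x m b).Finite ∧ ((exceptional B C x m b).ncard : ℝ) ≤ x / (m * Real.log x ^ A) := by
  obtain ⟨c, h⟩ := Pool.Agent.T9h57.GD.gd_real ρ hρ A B (C + 1)
  refine ⟨c, fun T => ?_⟩
  obtain ⟨x₀, h0⟩ := h T
  refine ⟨max x₀ (Real.exp 20), fun x hx => ?_⟩
  have hx10 : Real.exp 20 ≤ x := (le_max_right _ _).trans hx
  obtain ⟨D, hD1, hD2, h1⟩ := h0 x ((le_max_left _ _).trans hx)
  have hx0 : 0 < x := lt_of_lt_of_le (Real.exp_pos _) hx10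
  have hl10 : 20 ≤ Real.log x := by rw [Real.le_log_iff_exp_le hx0]; exact hx10
  refine ⟨D, hD1, hD2, fun m hm hmx hmD b => ?_⟩
  obtain ⟨f1, f2⟩ := h1 m hm hmx hmD b
  have hsub : exceptional B C x m b ⊆ Pool.Agent.R460.GQ.exceptional B (C + 1) x m b := by
    rintro n ⟨e1, e2, e3, e4, e5⟩
    refine ⟨e1, ?_, (even_iff_two_dvd).2 e3, e4, fun hh => e5 ?_⟩
    · rw [show C + 1 + 6 = C + 7 by omega]
      exact e2
    · have hF := formula_of (by linarith) hx0 e1 e2 hh
      exact ⟨diff_of hC hl10 hx10 hF, hF⟩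
  refine ⟨f1.subset hsub, le_trans ?_ f2⟩
  exact_mod_cast Set.ncard_le_ncard hsub f1

end Pool.Agent.Results.MP_70e905_nt.PairsLargeRadical
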